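import Mathlib
import Pool.Agent.W536.LM.Stm

set_option autoImplicit false

open Polynomial W536.LM

namespace W827.LM

noncomputable def pol : Fin 8 → Fin 2 → MvPolynomial (Fin 13) ℚ :=
  ![![MvPolynomial.X 0, MvPolynomial.X 1], ![MvPolynomial.X 2, MvPolynomial.X 3],
    ![MvPolynomial.X 4, MvPolynomial.X 5], ![MvPolynomial.X 6, MvPolynomial.X 7],
    ![MvPolynomial.X 8, MvPolynomial.X 9], ![MvPolynomial.X 10, MvPolynomial.X 11],
    ![0, 0], ![MvPolynomial.X 12, 0]]

/-- 14 polynomials in 13 variables are algebraically dependent -/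
theorem dep (f : Option (Fin 13) → MvPolynomial (Fin 13) ℚ) :
    ∃ R : MvPolynomial (Option (Fin 13)) ℚ, R ≠ 0 ∧ MvPolynomial.aeval f R = 0 := by
  have h : ¬ AlgebraicIndependent ℚ f := by
    intro h
    have h1 := h.cardinalMk_le_trdeg
    rw [MvPolynomial.trdeg_of_isDomain] at h1
    simp at h1
    have h2 : ((13 + 1 : ℕ) : Cardinal.{0}) ≤ ((13 : ℕ) : Cardinal.{0}) := by
      exact_mod_cast h1
    have h3 := Nat.cast_le.mp h2
    omega
  rw [algebraicIndependent_iff] at h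
  push Not at h
  obtain ⟨R, h1, h2⟩ := h
  exact ⟨R, h2, h1⟩

theorem dd_aeval (y : Fin 13 → ℂ) (i j : Fin 8) :
    MvPolynomial.aeval y (dd pol i j) = dd (fun v k => MvPolynomial.aeval y (pol v k)) i j := by
  simp [dd, Fin.sum_univ_two]

/-- normal form -/
theorem normal (q : Fin 8 → Fin 2 → ℂ) (hL : dd q 6 7 ≠ 0) :
    ∃ y : Fin 13 → ℂ, ∀ i j, MvPolynomial.aeval y (dd pol i j) = dd q i j := by
  obtain ⟨r, hr⟩ := IsAlgClosed.exists_pow_nat_eq (dd q 6 7) (n := 2) (by norm_num)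
  have hr0 : r ≠ 0 := by
    rintro rfl
    apply hL
    rw [← hr]; norm_num
  set a : ℂ := q 7 0 - q 6 0 with ha
  set b : ℂ := q 7 1 - q 6 1 with hb
  have hab : a ^ 2 + b ^ 2 = r ^ 2 := by
    rw [hr, dd, Fin.sum_univ_two, ha, hb]; ring
  let Q : Fin 8 → Fin 2 → ℂ := fun v => ![(a * (q v 0 - q 6 0) + b * (q v 1 - q 6 1)) / r,
    (-b * (q v 0 - q 6 0) + a * (q v 1 - q 6 1)) / r]
  have hQ : ∀ i j, dd Q i j = dd q i j := by
    intro i j
    simp only [dd, Fin.sum_univ_two, Q, Matrix.cons_val_zero, Matrix.cons_val_one]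
    have : ((a * (q i 0 - q 6 0) + b * (q i 1 - q 6 1)) / r -
        (a * (q j 0 - q 6 0) + b * (q j 1 - q 6 1)) / r) ^ 2 +
        ((-b * (q i 0 - q 6 0) + a * (q i 1 - q 6 1)) / r -
        (-b * (q j 0 - q 6 0) + a * (q j 1 - q 6 1)) / r) ^ 2 =
        (a ^ 2 + b ^ 2) * ((q i 0 - q j 0) ^ 2 + (q i 1 - q j 1) ^ 2) / r ^ 2 := by
      field_simp
      ring
    rw [this, hab]
    field_simp
  refine ⟨![Q 0 0, Q 0 1, Q 1 0, Q 1 1, Q 2 0, Q 2 1, Q 3 0, Q 3 1, Q 4 0, Q 4 1, Q 5 0, Q 5 1, r],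
    fun i j => ?_⟩
  rw [dd_aeval, ← hQ i j]
  congr 1
  funext v k
  have h60 : Q 6 0 = 0 := by simp [Q]
  have h61 : Q 6 1 = 0 := by simp [Q]
  have h70 : Q 7 0 = r := by
    show (a * (q 7 0 - q 6 0) + b * (q 7 1 - q 6 1)) / r = r
    rw [← ha, ← hb]
    field_simp
    linear_combination hab
  have h71 : Q 7 1 = 0 := by
    show (-b * (q 7 0 - q 6 0) + a * (q 7 1 - q 6 1)) / r = 0
    rw [← ha, ← hb]
    have : -b * a + a * b = 0 := by ring
    rw [this, zero_div]
  fin_cases v <;> fin_cases k <;> simp [pol, h60, h61, h70, h71]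

theorem Qeval (R : MvPolynomial (Option (Fin 13)) ℚ) (l : Fin 13 → ℂ) (z : ℂ) :
    ((MvPolynomial.optionEquivLeft ℚ (Fin 13) R).map
      ((MvPolynomial.aeval l : MvPolynomial (Fin 13) ℚ →ₐ[ℚ] ℂ) : MvPolynomial (Fin 13) ℚ →+* ℂ)).eval z =
      MvPolynomial.aeval (fun o : Option (Fin 13) => o.elim z l) R := by
  induction R using MvPolynomial.induction_on with
  | C a => simp
  | add p q hp hq => simp only [map_add, Polynomial.map_add, Polynomial.eval_add, hp, hq]
  | mul_X p n hp =>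
    simp only [map_mul, Polynomial.map_mul, Polynomial.eval_mul, hp]
    cases n <;> simp

theorem t_FINI : S_FINI := by
  intro p hp
  set l : Fin 13 → ℂ := fun a => ((dd p (ed a).1 (ed a).2 : ℝ) : ℂ) with hl
  have hlC : AlgebraicIndependent ℚ l := by
    have h1 := hp.map' (f := (Complex.ofRealAm.restrictScalars ℚ : ℝ →ₐ[ℚ] ℂ)) (by
      intro x y hxy
      simpa using hxy)
    exact h1
  have hinj : Function.Injective (MvPolynomial.aeval l : MvPolynomial (Fin 13) ℚ →ₐ[ℚ] ℂ) := hlC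
  have hl12 : l 12 ≠ 0 := by
    intro h
    have h2 := (algebraicIndependent_iff.mp hlC) (MvPolynomial.X 12) (by simpa using h)
    exact MvPolynomial.X_ne_zero 12 h2
  have key : ∀ i j : Fin 8, ∃ Q : ℂ[X], Q ≠ 0 ∧ ∀ q : Fin 8 → Fin 2 → ℂ,
      (∀ a, dd q (ed a).1 (ed a).2 = l a) → Q.eval (dd q i j) = 0 := by
    intro i j
    obtain ⟨R, hR0, hR⟩ := dep (fun o => o.elim (dd pol i j) (fun a => dd pol (ed a).1 (ed a).2))
    refine ⟨(MvPolynomial.optionEquivLeft ℚ (Fin 13) R).map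
      ((MvPolynomial.aeval l : MvPolynomial (Fin 13) ℚ →ₐ[ℚ] ℂ) : MvPolynomial (Fin 13) ℚ →+* ℂ),
      ?_, ?_⟩
    · intro h0
      apply hR0
      have h1 := Polynomial.map_injective
        ((MvPolynomial.aeval l : MvPolynomial (Fin 13) ℚ →ₐ[ℚ] ℂ) : MvPolynomial (Fin 13) ℚ →+* ℂ)
        hinj (h0.trans (Polynomial.map_zero _).symm)
      simpa using h1
    · intro q hq
      have hq67 : dd q 6 7 ≠ 0 := by
        have := hq 12
        simp only [ed] at this
        have h2 : dd q 6 7 = l 12 := by simpa [ed] using this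
        rw [h2]; exact hl12
      obtain ⟨y, hy⟩ := normal q hq67
      rw [Qeval]
      have h3 := congrArg (MvPolynomial.aeval y) hR
      rw [map_zero, MvPolynomial.comp_aeval_apply] at h3
      rw [← h3]
      congr 2
      funext o
      cases o with
      | none => simp [hy]
      | some a => simp [hy, hq]
  choose Q hQ0 hQ using key
  have hfin : (Set.pi Set.univ (fun i : Fin 8 => Set.pi Set.univ
      (fun j : Fin 8 => {z : ℂ | (Q i j).IsRoot z}))).Finite := by
    apply Set.Finite.pi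
    intro i
    apply Set.Finite.pi
    intro j
    exact Polynomial.finite_setOf_isRoot (hQ0 i j)
  refine hfin.subset ?_
  rintro D ⟨q, hq, rfl⟩
  intro i _ j _
  exact hQ i j q hq

end W827.LM
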